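import Pool.Agent.U38.AK.Defs

/-!
# Extensions by Artin groups and Shephard groups of infinite rank

`C` is any class of groups with the closure properties `ClosedE C`. All of them are published for the
class of the groups whose wreath products with finite groups satisfy the K- and L-theoretic
Farrell-Jones conjecture with coefficients.

Let `M` be a Coxeter matrix on any set `B` (the label `0` stands for infinity) and `p : B → ℕ`. The
Shephard group `Sh M p` has the generators `s_b`, `b ∈ B`, the braid relations of `M` and the relations
`s_b ^ p b = 1`; `Sh M 0` is the Artin group. Assume that the exponents `p b` are even (`0` is allowed) and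
that they agree along odd labels (`Adm M p`). Let `N ≅ Sh M p` be a normal subgroup of `G`, such that
the conjugation by every element of `G` maps every finite set of the standard generators into the
standard generators, up to the conjugation by one element of `N` (`LocStd`). Say that `ExtIn C M p` holds
if all such groups `G` with `G ⧸ N` in `C` are in `C`.

(1) If `C` contains `Sh M' p'` for all finite `(M', p')` all of whose cliques (sets with pairwise finite
labels) can be embedded in `(M, p)`, then `ExtIn C M p`.

(2) If the labels are even, then `ExtIn C M p` if and only if the groups of the finite cliques of `(M, p)`
are in `C`. If the labels are even and of type FC, and `p x = 0` or `p y = 0` or `p x = p y = 2` for all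
labels `M x y > 2`, then `ExtIn C M p`.

(3) If `C` contains the Artin groups of type FC of finite rank (Huang and Osajda have shown that they are
Helly, so they satisfy the Farrell-Jones conjecture), then `ExtIn C M 0` for all `M` of type FC on all sets.
Similarly for the Artin groups with labels in a given set; by Haettel the Artin groups of finite rank
with labels at least five are CAT(0).

(4) If `C` contains the groups `GL_n(ℚ)`, then `ExtIn C M 0` for all `M` whose graph of finite labels has no
triangle.

(5) If `C` contains the braid groups, then `ExtIn C M 0` for the path of the integers.

(6) `ExtIn C M p` implies that `C` contains the semidirect products of `Sh M p` with the groups in `C` which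
act by permutations of the generators. For example the braided Houghton group with two ends is the
semidirect product of the braid group in (5) with the integers acting by translations.

Outline of the proof.

* Finitely generated standard parabolic subgroups of `Sh M p` are the groups of the submatrices, by the
  theorem of van der Lek and its extension to Shephard groups in the library, and by a colimit.
* The generators are determined up to labels: in `Sh M p` the orders of the generators are the exponents
  and the label of two generators is the length of the shortest braid relation. So the partial maps
  of the generators in `LocStd` preserve labels and exponents.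
* Let `s` be a partial isomorphism of `(M, p)` with a finite domain `J`, and let `V ⊇ J ∪ s(J)` be
  finite. Glue copies of `B` indexed by the integers, the copy number `k + 1` to the copy number `k`
  along `s : J → s(J)`. A point of the result lies in the copies of an interval, and two points have
  the label `0` if they lie in no common copy; by Helly's theorem for intervals all finite cliques lie in
  one copy. The shift extends `s`.
* Now the partial isomorphism extends to an automorphism of an infinite matrix, and this is wrapped up
  to a finite matrix with an automorphism, as in `MP_2a0850_gt.InvariantPresentations`: a common
  multiple of the periods which is large compared with the times of the points of `V` becomes zero.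
  The cliques of the finite matrix lift to cliques.
* So the conjugation by `g` on a finite subset of `N` is realized in `Sh M' p' ⋊ ℤ`, where `ℤ` acts by an
  automorphism of finite order, and the realization criterion of the starting library applies.
* For the path of the integers the partial isomorphisms of intervals are translations and reflections,
  and they are given by conjugation with products of generators and half twists. So the conjugation by
  each element of `G` is locally inner, and only the braid groups are needed.
-/

set_option autoImplicit false

namespace Pool.Agent.Results.MP_9d1ffa_al.ArtinKernels

open Pool.Agent.Y110.FJ (ClosedE)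
open Pool.Agent.K7.H87.FJ6 (Sh Adm pull)
open Pool.Agent.U38.AK
open scoped MatrixGroups

theorem result (C : ∀ (G : Type) [Group G], Prop) (hC : ClosedE C) :
    (∀ (B : Type) (M : CoxeterMatrix B) (p : B → ℕ), Adm M p →
      ((∀ (T : Type) [Finite T] (M' : CoxeterMatrix T) (p' : T → ℕ), Adm M' p' →
        LocP M' p' M p → C (Sh M' p')) → ExtIn C M p) ∧
      (Evn M → (ExtIn C M p ↔ CliquesIn C M p)) ∧
      (Evn M → FCP M p → ExtIn C M p)) ∧
    (∀ (B : Type) (M : CoxeterMatrix B),
      ((∀ (T : Type) [Finite T] (M' : CoxeterMatrix T), TypeFC M' → C (Sh M' 0)) →
        TypeFC M → ExtIn C M 0) ∧
      (∀ L : Set ℕ, (∀ (T : Type) [Finite T] (M' : CoxeterMatrix T), LabelsIn M' L → C (Sh M' 0)) →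
        LabelsIn M L → ExtIn C M 0) ∧
      ((∀ n : ℕ, C (GL (Fin n) ℚ)) → NoTri M → ExtIn C M 0)) ∧
    ((∀ n, C (Sh (CoxeterMatrix.A n) 0)) → ExtIn C lineM 0) ∧
    (∀ (B : Type) (M : CoxeterMatrix B) (p : B → ℕ), ExtIn C M p → SemiIn C M p) := by
  refine ⟨?_, ?_, ?_, ?_⟩
  · intro B M p hA
    exact ⟨fun hK G _ N _ e hloc hQ => sh_main e hC hA hK hloc hQ, fun hM => even_iff' hC hA hM,
      fun hM h G _ N _ e hloc hQ => evenfc_main e hC hA hM h.1 h.2 hloc hQ⟩
  · intro B M
    exact ⟨fun hFC hM G _ N _ e hloc hQ => fc_main e hC hFC hM hloc hQ,
      fun L hL hM G _ N _ e hloc hQ => lab_main e hC L hL hM hloc hQ,
      fun hGL hM G _ N _ e hloc hQ => tri_main e hC hGL hM hloc hQ⟩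
  · intro hB
    exact fun G _ N _ e hloc hQ => braid_main e hC hB hloc hQ
  · intro B M p h
    exact h.semi hC

end Pool.Agent.Results.MP_9d1ffa_al.ArtinKernels
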