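import Pool.Agent.U643.TR.Rx

/-!
# Groups acting on trees whose vertex stabilizers have compatible series

`C` is any class of groups with the closure properties `ClosedE C` which contains the metabelian groups.
Both are known for the class of the groups whose wreath products with finite groups satisfy the K- and
L-theoretic Farrell–Jones conjecture with coefficients in additive categories; this class is contained in
the class of the groups which satisfy the conjecture of the problem (and its fibered version).

Let `G` act on a tree. A *family* is an equivariant family of normal subgroups `R v` of the vertex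
stabilizers `G_v` which agree on the edges: `R v ∩ G_u = R u ∩ G_v` if `v` and `u` are adjacent. The quotients
`G_v / R v` are the vertex groups of an action of `G / ⟨R⟩` on a tree, where `⟨R⟩` is the subgroup generated
by all `R v` (`Fm.meet`, `qtree`). We find conditions for `G / ⟨R⟩` to be in `C`. Call the family
*admissible* if it can be obtained with the following rules.

* (given) `R` is admissible if `G / ⟨R⟩` is in `C`.
* (kernel) The family `L ∩ G_v` is admissible if `L` is a normal subgroup of `G` and `G / L` is in `C`.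
* (inter) If `R` and `R'` are admissible then so is `R ∩ R'`.

Let `R` be admissible and `R' ≤ R` a family. Then `R'` is admissible in the following cases.

* (abelian) `R v / R' v` is abelian for all `v`.
* (fc) `R v / R' v` has finite conjugacy classes and only finitely many elements of finite order, for all
`v`. For example, `R v / R' v` may be finite, of unbounded orders, or a finitely generated
finite-by-abelian group.
* (commensurable) `R v / R' v` is virtually polycyclic, `(R v ∩ G_u) R' v` has finite index in `R v` for all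
adjacent `v`, `u`, and `C` contains the groups `GL_m(ℚ)`.
* (constant) `R v = (R v ∩ G_u) R' v` for all adjacent `v`, `u`, and every extension of `R v / R' v` by a
cyclic group is in `C`.
* (homology) `G_v / R' v` is in `C` for all `v`, and `E ∩ ([R v, R v] R' v) ≤ R' v` for the stabilizers `E`
of all the edges at `v`. Here `R` may even depend on the edge.

Theorem. If `R` is admissible then `G / ⟨R⟩` is in `C`. In particular `G` is in `C` if the trivial family is
admissible. Special cases: `G` is in `C` if one of the following conditions is satisfied.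

* (1) `G_v` is in `C` for all `v`, the edge stabilizers are solvable, of any derived lengths, and retracts
of the adjacent vertex stabilizers. So `C` is closed under amalgamated products and HNN extensions (and
graphs of groups) with associated subgroups which are solvable retracts, with arbitrary identifications.
* (2) `G_v` is in `C` for all `v`, and for every edge `{v, u}` with stabilizer `E` there are a normal subgroup
`L` of `G` with `G / L` in `C` and an `m` such that the derived series of the groups `L ∩ G_w` agree on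
all edges of the tree, and `E` meets the `m`-th term for `v` trivially. For `L = G` this contains the
graphs of solvable groups such that `E ∩ A^(i) = E ∩ B^(i)` for all `i` and all edge groups `E` in `A` and
`B`, for example because `E ∩ A^(i) = E^(i) = E ∩ B^(i)`.

* (3) `G` has a normal subgroup `L` with `G / L` in `C` such that every group `L ∩ G_v` has finite conjugacy
classes and only finitely many elements of finite order.
* (4) `G` has a normal subgroup `L` with `G / L` in `C` such that the groups `L ∩ G_v` are virtually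
polycyclic and `L ∩ E` has finite index in `L ∩ G_v` for every edge group `E` at `v`, and `C` contains the
groups `GL_m(ℚ)` (for the Farrell–Jones conjecture this is a theorem of Rüping). There may be torsion.

Idea of the proof. Let `L` be a normal subgroup with `G / L` in `C`, put `L_v = L ∩ G_v` and let `R` be a
family with `R v ≤ L_v`. For a suitable group `W` we look at the homomorphisms `f : L_v → W` which are *good*:
if `L_v / R v` is abelian for all `v` then `W = ℚ/ℤ` and `f` is trivial on `R v`; if the `L_v / R v` are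
finite of order at most `k` then `W = Sym(k!)` and `f` is a free action of `L_v / R v`; in general, `W` is the
symmetric group of a large set and `f` is a free action of `L_v / R v` with many orbits. Good homomorphisms of
`L_v ∩ L_u` extend to good homomorphisms of `L_u`, since free actions (with the same number of orbits) are
conjugate. By transport along the tree and the holonomy (`ISys.exists_hom`) every good homomorphism of `L_v`
is, up to an inner automorphism of `W`, the restriction of a homomorphism of the group generated by all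
`L_w` which is good on every `L_w`. The intersection `D` of the kernels of these globally good homomorphisms
is normal in `G`, meets `G_v` in `R v`, and `⟨L_v⟩ / D` embeds in a power of `W`; so it is abelian or locally
finite in the first two cases, and `G / D` is in `C`. The case of unbounded orders is reduced to finitely
generated subgroups, which act with finitely many orbits on a subtree. The third choice of `W` shows that
`⟨R⟩` meets `G_v` in `R v` for every family `R`. So one can pass to the action of `G / ⟨R'⟩` on the quotient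
tree. If the groups `L_v` have finite conjugacy classes, their torsion subgroups are a family, with abelian
quotients; this gives (fc). If the `L_v` are commensurable and virtually polycyclic, then there is a
homomorphism `ρ` from `G` to a group in `C` such that the groups `L_v ∩ ker ρ` have finite conjugacy classes
(library theorem `N77.CP.ind`), so that (fc) applies. The rule (homology) is reduced to the library theorem
`N509.TK.hedges` for the action of `G / ⟨R'⟩`.
-/

set_option autoImplicit false

namespace Pool.Agent.Results.MP_9d1ffa_al.CompatibleSeriesOnTrees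

open MulAction (stabilizer)
open Pool.Agent.Y110.FJ (ClosedE)

section defs

variable {G V : Type} [Group G] [MulAction G V]

/-- an equivariant family of subgroups of the vertex stabilizers which agree on the edges -/
structure IsFamily (T : SimpleGraph V) (R : V → Subgroup G) : Prop where
  le : ∀ v, R v ≤ stabilizer G v
  equivariant : ∀ (g : G) (v : V), ∀ x ∈ R v, g * x * g⁻¹ ∈ R (g • v)
  edge : ∀ v u, T.Adj v u → ∀ x ∈ R v, x • u = u → x ∈ R u

/-- `A / B` has the property `P` -/
def QuotientHas (P : ∀ (Q : Type) [Group Q], Prop) (A B : Subgroup G) : Prop :=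
  ∃ (Q : Type) (_ : Group Q) (f : A →* Q), Function.Surjective f ∧
    (∀ x : A, f x = 1 ↔ (x : G) ∈ B) ∧ P Q

/-- all conjugacy classes are finite and there are only finitely many elements of finite order -/
def FiniteClasses (Q : Type) [Group Q] : Prop :=
  (∀ q : Q, (Subgroup.centralizer {q}).FiniteIndex) ∧ {q : Q | ∃ n : ℕ, 0 < n ∧ q ^ n = 1}.Finite

/-- `Q` has a torsion-free polycyclic subgroup of finite index; polycyclic groups are the solvable groups
all of whose subgroups are finitely generated -/
def VirtuallyPolycyclic (Q : Type) [Group Q] : Prop :=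
  ∃ S : Subgroup Q, S.FiniteIndex ∧ Group.IsSolvable S ∧ (∀ H : Subgroup S, H.FG) ∧
    ∀ (x : S) (n : ℕ), 0 < n → x ^ n = 1 → x = 1

/-- every extension of `Q` by a cyclic group is in the class -/
def CyclicExtensions (C : ∀ (G : Type) [Group G], Prop) (Q : Type) [Group Q] : Prop :=
  ∀ (X : Type) [Group X] (K : Subgroup X) [K.Normal] (i : Q →* X), Function.Injective i →
    i.range = K → IsCyclic (X ⧸ K) → C X

/-- the admissible families -/
inductive Admissible (C : ∀ (G : Type) [Group G], Prop) (T : SimpleGraph V) :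
    (V → Subgroup G) → Prop
  | given (R : V → Subgroup G) (h' : IsFamily T R)
      (h : ∀ (N : Subgroup G) [N.Normal], N = ⨆ v, R v → C (G ⧸ N)) : Admissible C T R
  | kernel (L : Subgroup G) [L.Normal] (h : C (G ⧸ L)) :
      Admissible C T (fun v => stabilizer G v ⊓ L)
  | inter (R R' : V → Subgroup G) (h : Admissible C T R) (h' : Admissible C T R') :
      Admissible C T (fun v => R v ⊓ R' v)
  | abelian (R R' : V → Subgroup G) (h : Admissible C T R) (h' : IsFamily T R')
      (hle : ∀ v, R' v ≤ R v) (hab : ∀ v, ⁅R v, R v⁆ ≤ R' v) : Admissible C T R'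
  | fc (R R' : V → Subgroup G) (h : Admissible C T R) (h' : IsFamily T R')
      (hle : ∀ v, R' v ≤ R v) (hfc : ∀ v, QuotientHas FiniteClasses (R v) (R' v)) :
      Admissible C T R'
  | commensurable (hGL : ∀ m : ℕ, C (Matrix.GeneralLinearGroup (Fin m) ℚ))
      (R R' : V → Subgroup G) (h : Admissible C T R) (h' : IsFamily T R') (hle : ∀ v, R' v ≤ R v)
      (hfin : ∀ v u, T.Adj v u → ((R v ⊓ stabilizer G u) ⊔ R' v).relIndex (R v) ≠ 0)
      (hvp : ∀ v, QuotientHas VirtuallyPolycyclic (R v) (R' v)) : Admissible C T R'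
  | constant (R R' : V → Subgroup G) (h : Admissible C T R) (h' : IsFamily T R')
      (hle : ∀ v, R' v ≤ R v) (hc : ∀ v u, T.Adj v u → R v ≤ (R v ⊓ stabilizer G u) ⊔ R' v)
      (hcyc : ∀ v, QuotientHas (CyclicExtensions C) (R v) (R' v)) : Admissible C T R'
  | homology (R : V → V → V → Subgroup G) (R' : V → Subgroup G) (h' : IsFamily T R')
      (hV : ∀ v, QuotientHas C (stabilizer G v) (R' v))
      (h : ∀ v u, T.Adj v u → Admissible C T (R v u))
      (hle : ∀ v u, T.Adj v u → ∀ w, R' w ≤ R v u w)
      (hE : ∀ v u, T.Adj v u →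
        stabilizer G v ⊓ stabilizer G u ⊓ (⁅R v u v, R v u v⁆ ⊔ R' v) ≤ R' v) : Admissible C T R'

/-- the derived series of a subgroup -/
def derived (A : Subgroup G) : ℕ → Subgroup G
  | 0 => A
  | n + 1 => ⁅derived A n, derived A n⁆

end defs

section prf

open Pool.Agent.U643.TR
open Pool.Agent.N509.TK (Sb mem_Sb Sb_le Sb_conj Sb_normal)
open Pool.Agent.R941.FJ (C_equiv C_le C_cyc)

variable {C : ∀ (G : Type) [Group G], Prop} {G V : Type} [Group G] [MulAction G V]
  {T : SimpleGraph V} {R R' : V → Subgroup G}

theorem IsFamily.fm (h : IsFamily T R) : Fm T R := ⟨h.le, h.equivariant, h.edge⟩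

theorem fam_kernel (L : Subgroup G) [hL : L.Normal] :
    IsFamily T (fun v : V => stabilizer G v ⊓ L) where
  le v := inf_le_left
  equivariant g v x hx := Sb_conj L g v hx
  edge v u _ x hx hu := ⟨hu, hx.2⟩

theorem fam_inter (h : IsFamily T R) (h' : IsFamily T R') : IsFamily T (fun v => R v ⊓ R' v) where
  le v := inf_le_left.trans (h.le v)
  equivariant g v x hx := ⟨h.equivariant g v x hx.1, h'.equivariant g v x hx.2⟩
  edge v u hvu x hx hu := ⟨h.edge v u hvu x hx.1 hu, h'.edge v u hvu x hx.2 hu⟩

/-- the quotient by the group generated by the family is in the class -/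
def Qc (C : ∀ (G : Type) [Group G], Prop) (R : V → Subgroup G) : Prop :=
  ∀ (N : Subgroup G) [N.Normal], N = ⨆ v, R v → C (G ⧸ N)

theorem inter_quot (hC : ClosedE C) (hT : T.IsTree)
    (hact : ∀ (g : G) (u v : V), T.Adj u v → T.Adj (g • u) (g • v)) (hR : IsFamily T R)
    (hR' : IsFamily T R') (h : Qc C R) (h' : Qc C R') : Qc C (fun v => R v ⊓ R' v) := by
  intro N _ hN
  have hn := hR.fm.normal
  have hn' := hR'.fm.normal
  obtain ⟨A, hA⟩ : ∃ A, A = ⨆ v, R v := ⟨_, rfl⟩
  obtain ⟨B, hB⟩ : ∃ B, B = ⨆ v, R' v := ⟨_, rfl⟩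
  rw [← hA] at hn
  rw [← hB] at hn'
  have h1 : C (G ⧸ (A ⊓ B)) := by
    refine hC.base.of_injective _ ((G ⧸ A) × (G ⧸ B))
      ((QuotientGroup.map (A ⊓ B) A (MonoidHom.id G) inf_le_left).prod
        (QuotientGroup.map (A ⊓ B) B (MonoidHom.id G) inf_le_right)) ?_
      (hC.base.prod _ _ (h A hA) (h' B hB))
    rw [injective_iff_map_eq_one]
    intro x hx
    obtain ⟨y, rfl⟩ := QuotientGroup.mk_surjective x
    have h2 : ((y : G) : G ⧸ A) = 1 := congrArg Prod.fst hx
    have h3 : ((y : G) : G ⧸ B) = 1 := congrArg Prod.snd hx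
    exact (QuotientGroup.eq_one_iff y).2
      ⟨(QuotientGroup.eq_one_iff y).1 h2, (QuotientGroup.eq_one_iff y).1 h3⟩
  refine quot_Sb hC hT hact h1 N ?_
  rw [hN]
  apply le_antisymm
  · refine iSup_mono fun v x hx => mem_Sb.2 ⟨hR.le v hx.1, ?_, ?_⟩
    · rw [hA]
      exact le_iSup R v hx.1
    · rw [hB]
      exact le_iSup R' v hx.2
  · refine iSup_mono fun v x hx => ⟨?_, ?_⟩
    · have h2 : x ∈ A := hx.2.1
      rw [hA] at h2
      exact hR.fm.meet hT hact h2 hx.1
    · have h2 : x ∈ B := hx.2.2
      rw [hB] at h2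
      exact hR'.fm.meet hT hact h2 hx.1

theorem cyc_of {A B : Subgroup G} (h : QuotientHas (CyclicExtensions C) A B) : Cy C A B := by
  intro X _ K _ φ hφ hB hX
  obtain ⟨P, _, f, hf, hk, hP⟩ := h
  obtain ⟨j, hj, -, hj'⟩ := lift_iso f hf φ (fun x => by rw [hk, hB])
  exact hP X K j hj (hj'.trans hφ) hX

theorem main (hC : ClosedE C) (hM : ∀ (G : Type) [Group G], derivedSeries G 2 = ⊥ → C G)
    (hT : T.IsTree) (hact : ∀ (g : G) (u v : V), T.Adj u v → T.Adj (g • u) (g • v))
    (h : Admissible C T R) : IsFamily T R ∧ Qc C R := by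
  induction h with
  | given R h' h => exact ⟨h', h⟩
  | kernel L h =>
    refine ⟨fam_kernel L, ?_⟩
    intro N _ hN
    exact quot_Sb hC hT hact h N hN
  | inter R R' h h' ih ih' =>
    exact ⟨fam_inter ih.1 ih'.1, inter_quot hC hT hact ih.1 ih'.1 ih.2 ih'.2⟩
  | abelian R R' h h' hle hab ih =>
    refine ⟨h', ?_⟩
    intro N' _ hN'
    have hn := ih.1.fm.normal
    obtain ⟨N, hN⟩ : ∃ N, N = ⨆ v, R v := ⟨_, rfl⟩
    rw [← hN] at hn
    refine rule_ab hC hM hT hact ih.1.fm h'.fm hle ?_ N N' hN hN' (ih.2 N hN)
    intro v x hx y hy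
    exact hab v (Subgroup.commutator_mem_commutator hx hy)
  | fc R R' h h' hle hfc ih =>
    refine ⟨h', ?_⟩
    intro N' _ hN'
    have hn := ih.1.fm.normal
    obtain ⟨N, hN⟩ : ∃ N, N = ⨆ v, R v := ⟨_, rfl⟩
    rw [← hN] at hn
    exact rule_fc hC hM hT hact ih.1.fm h'.fm hle hfc N N' hN hN' (ih.2 N hN)
  | commensurable hGL R R' h h' hle hfin hvp ih =>
    refine ⟨h', ?_⟩
    intro N' _ hN'
    have hn := ih.1.fm.normal
    obtain ⟨N, hN⟩ : ∃ N, N = ⨆ v, R v := ⟨_, rfl⟩
    rw [← hN] at hn
    exact rule_poly hC hM hGL hT hact ih.1.fm h'.fm hle hfin hvp N N' hN hN' (ih.2 N hN)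
  | constant R R' h h' hle hc hcyc ih =>
    refine ⟨h', ?_⟩
    intro N' _ hN'
    have hn := ih.1.fm.normal
    obtain ⟨N, hN⟩ : ∃ N, N = ⨆ v, R v := ⟨_, rfl⟩
    rw [← hN] at hn
    refine rule_con hC hT hact ih.1.fm h'.fm hle ?_ (fun v => cyc_of (hcyc v)) N N' hN hN'
      (ih.2 N hN)
    intro v u hvu x hx
    have hnv : ∀ g ∈ R v, ∀ y ∈ R' v, g * y * g⁻¹ ∈ R' v := by
      intro g hg y hy
      have h1 := h'.equivariant g v y hy
      have h2 : g • v = v := ih.1.le v hg
      rwa [h2] at h1
    let K : Subgroup G :=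
      { carrier := {z | z ∈ R v ∧ ∃ y, y • u = u ∧ y⁻¹ * z ∈ R' v}
        mul_mem' := by
          rintro a b ⟨ha1, y, hy, hy1⟩ ⟨hb1, z, hz, hz1⟩
          refine ⟨mul_mem ha1 hb1, y * z, by rw [mul_smul, hz, hy], ?_⟩
          have h4 : (y * z)⁻¹ * (a * b) = (z⁻¹ * b) * (b⁻¹ * (y⁻¹ * a) * b⁻¹⁻¹) := by group
          rw [h4]
          exact mul_mem hz1 (hnv _ (inv_mem hb1) _ hy1)
        one_mem' := ⟨one_mem _, 1, one_smul G u, by rw [inv_one, one_mul]; exact one_mem _⟩
        inv_mem' := by
          rintro a ⟨ha1, y, hy, hy1⟩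
          have hyR : y ∈ R v := by
            have h5 : y = a * (y⁻¹ * a)⁻¹ := by group
            rw [h5]
            exact mul_mem ha1 (inv_mem (hle v hy1))
          refine ⟨inv_mem ha1, y⁻¹, inv_smul_eq_iff.2 hy.symm, ?_⟩
          have h4 : (y⁻¹)⁻¹ * a⁻¹ = (y * (y⁻¹ * a) * y⁻¹)⁻¹ := by group
          rw [h4]
          exact inv_mem (hnv _ hyR _ hy1) }
    have h3 : (R v ⊓ stabilizer G u) ⊔ R' v ≤ K :=
      sup_le (fun x hx => ⟨hx.1, x, hx.2, by rw [inv_mul_cancel]; exact one_mem _⟩)
        (fun x hx => ⟨hle v hx, 1, one_smul G u, by rwa [inv_one, one_mul]⟩)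
    exact (h3 (hc v u hvu hx)).2
  | homology R R' h' hV h hle hE ih =>
    refine ⟨h', ?_⟩
    intro N' _ hN'
    refine rule_hom hC hM hT hact h'.fm (fun v => ?_) ?_ N' hN'
    · obtain ⟨P, _, f, -, hf, hP⟩ := hV v
      exact ⟨P, inferInstance, f, hP, hf⟩
    intro v u hvu
    refine ⟨R v u, (ih v u hvu).1.fm, hle v u hvu, (ih v u hvu).2, ?_⟩
    intro x hxv hxu hx
    exact hE v u hvu ⟨⟨hxv, hxu⟩, hx⟩

/-! ### the special cases -/

theorem fam_bot : IsFamily T (fun _ : V => (⊥ : Subgroup G)) where
  le v := bot_le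
  equivariant g v x hx := by
    rw [Subgroup.mem_bot] at hx ⊢
    rw [hx]
    group
  edge v u _ x hx _ := hx

theorem of_bot (hC : ClosedE C) (hM : ∀ (G : Type) [Group G], derivedSeries G 2 = ⊥ → C G)
    (hT : T.IsTree) (hact : ∀ (g : G) (u v : V), T.Adj u v → T.Adj (g • u) (g • v))
    (h : Admissible C T (fun _ => (⊥ : Subgroup G))) : C G := by
  have h1 : (⊥ : Subgroup G) = ⨆ _ : V, (⊥ : Subgroup G) := by
    symm
    rw [eq_bot_iff]
    exact iSup_le fun v => le_refl _
  exact C_equiv hC.base QuotientGroup.quotientBot.symm ((main hC hM hT hact h).2 ⊥ h1)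

theorem of_edges (hC : ClosedE C) (hM : ∀ (G : Type) [Group G], derivedSeries G 2 = ⊥ → C G)
    (hT : T.IsTree) (hact : ∀ (g : G) (u v : V), T.Adj u v → T.Adj (g • u) (g • v))
    (hV : ∀ v : V, C ↥(stabilizer G v))
    (hE : ∀ v u, T.Adj v u → ∃ R : V → Subgroup G, Admissible C T R ∧
      ∀ x ∈ ⁅R v, R v⁆, x • u = u → x = 1) : C G := by
  classical
  refine of_bot hC hM hT hact ?_
  let ρ : V → V → V → Subgroup G := fun v u =>
    if h : T.Adj v u then Classical.choose (hE v u h) else fun _ => ⊥
  have hρ : ∀ v u, T.Adj v u → Admissible C T (ρ v u) ∧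
      ∀ x ∈ ⁅ρ v u v, ρ v u v⁆, x • u = u → x = 1 := by
    intro v u h
    have h1 : ρ v u = Classical.choose (hE v u h) := dif_pos h
    rw [h1]
    exact Classical.choose_spec (hE v u h)
  refine .homology ρ _ fam_bot ?_ (fun v u h => (hρ v u h).1) (fun v u _ w => bot_le) ?_
  · intro v
    refine ⟨_, inferInstance, MonoidHom.id _, Function.surjective_id, fun x => ?_, hV v⟩
    rw [Subgroup.mem_bot]
    exact ⟨fun h => congrArg Subtype.val h, fun h => Subtype.ext h⟩
  · rintro v u h x ⟨⟨hxv, hxu⟩, hx⟩
    rw [sup_bot_eq] at hx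
    rw [Subgroup.mem_bot]
    exact (hρ v u h).2 x hx hxu

theorem derived_conj (g : G) {A B : Subgroup G} (h : ∀ x ∈ A, g * x * g⁻¹ ∈ B) (n : ℕ) :
    ∀ x ∈ derived A n, g * x * g⁻¹ ∈ derived B n := by
  induction n with
  | zero => exact h
  | succ n ih =>
    intro x hx
    have h1 : (derived A n).map (MulAut.conj g).toMonoidHom ≤ derived B n := by
      rintro _ ⟨y, hy, rfl⟩
      exact ih y hy
    have h2 : (⁅derived A n, derived A n⁆).map (MulAut.conj g).toMonoidHom ≤
        ⁅derived B n, derived B n⁆ := by
      rw [Subgroup.map_commutator]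
      exact Subgroup.commutator_mono h1 h1
    exact h2 ⟨x, hx, rfl⟩

theorem derived_le (A : Subgroup G) (n : ℕ) : derived A n ≤ A := by
  induction n with
  | zero => exact le_refl _
  | succ n ih => exact (Subgroup.commutator_le_self _).trans ih

theorem derived_adm (L : Subgroup G) [hL : L.Normal] (hQ : C (G ⧸ L))
    (hc : ∀ v u, T.Adj v u → ∀ n, ∀ x ∈ derived (stabilizer G v ⊓ L) n, x • u = u →
      x ∈ derived (stabilizer G u ⊓ L) n) (n : ℕ) :
    Admissible C T (fun v => derived (stabilizer G v ⊓ L) n) := by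
  induction n with
  | zero => exact .kernel L hQ
  | succ n ih =>
    refine .abelian _ _ ih ?_ (fun v => Subgroup.commutator_le_self _) (fun v => le_refl _)
    refine ⟨fun v => (derived_le _ _).trans inf_le_left, ?_, fun v u h x hx hu => ?_⟩
    · intro g v x hx
      exact derived_conj g (fun y hy => Sb_conj L g v hy) _ x hx
    · exact hc v u h (n + 1) x hx hu

theorem of_fc (hC : ClosedE C) (hM : ∀ (G : Type) [Group G], derivedSeries G 2 = ⊥ → C G)
    (hT : T.IsTree) (hact : ∀ (g : G) (u v : V), T.Adj u v → T.Adj (g • u) (g • v))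
    (h : ∃ (L : Subgroup G) (_ : L.Normal), C (G ⧸ L) ∧
      ∀ v : V, FiniteClasses ↥(stabilizer G v ⊓ L)) : C G := by
  obtain ⟨L, _, hQ, hf⟩ := h
  refine of_bot hC hM hT hact (.fc _ _ (.kernel L hQ) fam_bot (fun v => bot_le) fun v => ?_)
  refine ⟨_, inferInstance, MonoidHom.id _, Function.surjective_id, fun x => ?_, hf v⟩
  rw [Subgroup.mem_bot]
  exact ⟨fun h => congrArg Subtype.val h, fun h => Subtype.ext h⟩

theorem of_poly (hC : ClosedE C) (hM : ∀ (G : Type) [Group G], derivedSeries G 2 = ⊥ → C G)
    (hT : T.IsTree) (hact : ∀ (g : G) (u v : V), T.Adj u v → T.Adj (g • u) (g • v))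
    (hGL : ∀ m : ℕ, C (Matrix.GeneralLinearGroup (Fin m) ℚ))
    (h : ∃ (L : Subgroup G) (_ : L.Normal), C (G ⧸ L) ∧
      (∀ v u, T.Adj v u → (stabilizer G v ⊓ L).relIndex (stabilizer G u ⊓ L) ≠ 0) ∧
      ∃ v : V, VirtuallyPolycyclic ↥(stabilizer G v ⊓ L)) : C G := by
  obtain ⟨L, _, hQ, hf, o, S, hS, hSs, hSm, hSt⟩ := h
  have hi : Function.Injective (stabilizer G o ⊓ L).subtype := Subtype.val_injective
  let e := S.equivMapOfInjective _ hi
  refine poly_L hC hM hGL hT hact L hQ hf o (S.map (stabilizer G o ⊓ L).subtype) ?_ ?_ ?_ ?_ ?_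
  · exact Subgroup.map_subtype_le S
  · have h1 : (S.map (stabilizer G o ⊓ L).subtype).relIndex (Sb L o) = S.index := by
      rw [← Subgroup.relIndex_top_right, ← Subgroup.relIndex_map_map_of_injective _ _ hi,
        ← MonoidHom.range_eq_map, Subgroup.range_subtype]
      rfl
    rw [h1]
    exact hS.index_ne_zero
  · exact Group.isSolvable_of_surjective (f := e.toMonoidHom) e.surjective
  · intro H
    obtain ⟨F, hF⟩ := hSm (H.comap e.toMonoidHom)
    have h2 : (H.comap e.toMonoidHom).map e.toMonoidHom = H :=
      Subgroup.map_comap_eq_self_of_surjective e.surjective H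
    rw [← h2]
    classical
    refine ⟨F.image e.toMonoidHom, ?_⟩
    rw [Finset.coe_image, ← MonoidHom.map_closure, hF]
  · intro x n hn hx
    obtain ⟨y, rfl⟩ := e.surjective x
    have h1 : y = 1 := hSt y n hn (by
      apply e.injective
      rw [map_pow, hx, map_one])
    rw [h1, map_one]

theorem of_derived (hC : ClosedE C) (hM : ∀ (G : Type) [Group G], derivedSeries G 2 = ⊥ → C G)
    (hT : T.IsTree) (hact : ∀ (g : G) (u v : V), T.Adj u v → T.Adj (g • u) (g • v))
    (hV : ∀ v : V, C ↥(stabilizer G v))
    (h : ∀ v u, T.Adj v u → ∃ (L : Subgroup G) (_ : L.Normal), C (G ⧸ L) ∧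
      (∀ w z, T.Adj w z → ∀ n, ∀ x ∈ derived (stabilizer G w ⊓ L) n, x • z = z →
        x ∈ derived (stabilizer G z ⊓ L) n) ∧
      ∃ m, ∀ x ∈ derived (stabilizer G v ⊓ L) m, x • u = u → x = 1) : C G := by
  refine of_edges hC hM hT hact hV fun v u hvu => ?_
  obtain ⟨L, _, hQ, hc, m, hm⟩ := h v u hvu
  refine ⟨fun w => derived (stabilizer G w ⊓ L) m, derived_adm L hQ hc m, ?_⟩
  intro x hx hxu
  exact hm x (Subgroup.commutator_le_self _ hx) hxu

/-- a hom which is the identity on a subgroup -/
theorem derived_retract {A E : Subgroup G} (hEA : E ≤ A) (r : A →* G) (hr : ∀ x, r x ∈ E)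
    (n : ℕ) : ∀ x : A, (x : G) ∈ derived A n → r x ∈ derived E n := by
  induction n with
  | zero =>
    intro x _
    exact hr x
  | succ n ih =>
    intro x hx
    have h1 : derived A (n + 1) = (⁅(derived A n).subgroupOf A, (derived A n).subgroupOf A⁆).map
        A.subtype := by
      rw [Subgroup.map_commutator, Subgroup.subgroupOf_map_subtype,
        inf_eq_left.2 (derived_le A n)]
      rfl
    rw [h1] at hx
    obtain ⟨y, hy, hyx⟩ := hx
    have h2 : y = x := Subtype.ext hyx
    rw [h2] at hy
    have h3 : (⁅(derived A n).subgroupOf A, (derived A n).subgroupOf A⁆).map r ≤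
        ⁅derived E n, derived E n⁆ := by
      rw [Subgroup.map_commutator]
      have h4 : ((derived A n).subgroupOf A).map r ≤ derived E n := by
        rintro _ ⟨z, hz, rfl⟩
        exact ih z hz
      exact Subgroup.commutator_mono h4 h4
    exact h3 ⟨x, hy, rfl⟩

theorem derived_mono {A B : Subgroup G} (h : A ≤ B) (n : ℕ) : derived A n ≤ derived B n := by
  induction n with
  | zero => exact h
  | succ n ih => exact Subgroup.commutator_mono ih ih

theorem derived_eq (A : Subgroup G) (n : ℕ) :
    (derivedSeries A n).map A.subtype = derived A n := by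
  induction n with
  | zero =>
    rw [derivedSeries_zero, ← MonoidHom.range_eq_map, Subgroup.range_subtype]
    rfl
  | succ n ih =>
    rw [derivedSeries_succ, Subgroup.map_commutator, ih]
    rfl

theorem of_retract (hC : ClosedE C) (hM : ∀ (G : Type) [Group G], derivedSeries G 2 = ⊥ → C G)
    (hT : T.IsTree) (hact : ∀ (g : G) (u v : V), T.Adj u v → T.Adj (g • u) (g • v))
    (hV : ∀ v : V, C ↥(stabilizer G v))
    (h : ∀ v u, T.Adj v u → Group.IsSolvable ↥(stabilizer G v ⊓ stabilizer G u) ∧
      ∃ r : ↥(stabilizer G v) →* G, (∀ x, r x ∈ stabilizer G v ⊓ stabilizer G u) ∧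
        ∀ x : ↥(stabilizer G v), (x : G) ∈ stabilizer G u → r x = x) : C G := by
  have key : ∀ v u, T.Adj v u → ∀ n, ∀ x ∈ derived (stabilizer G v) n, x • u = u →
      x ∈ derived (stabilizer G v ⊓ stabilizer G u) n := by
    intro v u hvu n x hx hxu
    obtain ⟨-, r, hr, hr'⟩ := h v u hvu
    have h1 := derived_retract (E := stabilizer G v ⊓ stabilizer G u) inf_le_left r hr n
      ⟨x, derived_le _ n hx⟩ hx
    have h6 := hr' ⟨x, derived_le _ n hx⟩ hxu
    rwa [h6] at h1
  refine of_edges hC hM hT hact hV fun v u hvu => ?_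
  have htop : C (G ⧸ (⊤ : Subgroup G)) := by
    refine hC.base.of_injective _ _ (1 : G ⧸ (⊤ : Subgroup G) →* Multiplicative ℤ) ?_ hC.base.int
    intro a b _
    obtain ⟨a, rfl⟩ := QuotientGroup.mk_surjective a
    obtain ⟨b, rfl⟩ := QuotientGroup.mk_surjective b
    exact QuotientGroup.eq.2 (Subgroup.mem_top _)
  have h2 : ∀ n, Admissible C T (fun v : V => derived (stabilizer G v ⊓ (⊤ : Subgroup G)) n) := by
    refine derived_adm ⊤ htop ?_
    intro v u hvu n x hx hxu
    rw [inf_top_eq] at hx ⊢
    have h3 := key v u hvu n x hx hxu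
    exact derived_mono inf_le_right n h3
  obtain ⟨n, hn⟩ := (h v u hvu).1.solvable
  refine ⟨_, h2 n, ?_⟩
  intro x hx hxu
  have h3 : x ∈ derived (stabilizer G v) n := by
    have h4 := Subgroup.commutator_le_self _ hx
    simpa using h4
  have h5 := key v u hvu n x h3 hxu
  rw [← derived_eq, hn, Subgroup.map_bot, Subgroup.mem_bot] at h5
  exact h5

end prf

/-- **the theorem** -/
theorem result (C : ∀ (G : Type) [Group G], Prop) (hC : ClosedE C)
    (hM : ∀ (G : Type) [Group G], derivedSeries G 2 = ⊥ → C G)
    {G V : Type} [Group G] [MulAction G V] (T : SimpleGraph V) (hT : T.IsTree)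
    (hact : ∀ (g : G) (u v : V), T.Adj u v → T.Adj (g • u) (g • v)) :
    -- admissible families
    (∀ R : V → Subgroup G, Admissible C T R →
      ∀ (N : Subgroup G) [N.Normal], N = ⨆ v, R v → C (G ⧸ N)) ∧
    (Admissible C T (fun _ => (⊥ : Subgroup G)) → C G) ∧
    -- (1) solvable edge groups which are retracts of the vertex groups
    ((∀ v : V, C ↥(stabilizer G v)) →
      (∀ v u, T.Adj v u → Group.IsSolvable ↥(stabilizer G v ⊓ stabilizer G u) ∧
        ∃ r : ↥(stabilizer G v) →* G, (∀ x, r x ∈ stabilizer G v ⊓ stabilizer G u) ∧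
          ∀ x : ↥(stabilizer G v), (x : G) ∈ stabilizer G u → r x = x) → C G) ∧
    -- (2) derived series which agree on the edges
    ((∀ v : V, C ↥(stabilizer G v)) →
      (∀ v u, T.Adj v u → ∃ (L : Subgroup G) (_ : L.Normal), C (G ⧸ L) ∧
        (∀ w z, T.Adj w z → ∀ n, ∀ x ∈ derived (stabilizer G w ⊓ L) n, x • z = z →
          x ∈ derived (stabilizer G z ⊓ L) n) ∧
        ∃ m, ∀ x ∈ derived (stabilizer G v ⊓ L) m, x • u = u → x = 1) → C G) ∧
    -- (3) kernels with finite conjugacy classes
    ((∃ (L : Subgroup G) (_ : L.Normal), C (G ⧸ L) ∧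
      ∀ v : V, FiniteClasses ↥(stabilizer G v ⊓ L)) → C G) ∧
    -- (4) kernels with commensurable virtually polycyclic stabilizers
    ((∀ m : ℕ, C (Matrix.GeneralLinearGroup (Fin m) ℚ)) →
      (∃ (L : Subgroup G) (_ : L.Normal), C (G ⧸ L) ∧
        (∀ v u, T.Adj v u → (stabilizer G v ⊓ L).relIndex (stabilizer G u ⊓ L) ≠ 0) ∧
        ∃ v : V, VirtuallyPolycyclic ↥(stabilizer G v ⊓ L)) → C G) :=
  ⟨fun _ h => (main hC hM hT hact h).2, of_bot hC hM hT hact, of_retract hC hM hT hact,
    of_derived hC hM hT hact, of_fc hC hM hT hact, of_poly hC hM hT hact⟩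

end Pool.Agent.Results.MP_9d1ffa_al.CompatibleSeriesOnTrees
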