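import Pool.Agent.U863.CT.TorsQ2

/-!
# Contracting recursions on groups with torsion and the Farrell–Jones conjecture

`C` is any class of groups with the closure properties `Closed C`: it contains `ℤ` and is closed under
subgroups, finite products, free products, overgroups of finite index and directed colimits with
arbitrary structure maps. This is known for the class of the groups whose wreath products with finite
groups satisfy the K- and L-theoretic Farrell–Jones conjecture with coefficients.

Let `ψ : Γ → Γ ≀ Sym X`, `X` finite, be a contracting wreath recursion: there is a finite set which
contains the sections of every element of `Γ` at all long words. It defines an action of `Γ` on the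
tree `X^*`, which need not be faithful. The theorem says that the group of tree automorphisms given by
`ψ` is in `C` if `Γ` is the free product of a family of groups whose quotients by finitely many elements
of finite order are in `C` (`TorsionQuotients`). The family may consist of one group; finite groups,
and torsion-free groups in `C`, have the property. There is no condition on the recursion: elements
of finite order, and elements of infinite order, may act trivially without dying under the recursion.
The result extends to all groups of tree automorphisms whose elements have all their sections at
some level in the group given by `ψ`.

For free products of finite cyclic groups this applies to the orbifold fundamental groups of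
post-critically finite rational functions with a periodic critical point (the fact that their
recursions are contracting is due to Nekrashevych and is not proved here). In the starting library
(`Pool/Agent/N59/CR`) there is the case that no nontrivial element of finite order acts trivially.

Outline of the proof. Let `N` be a finite set as above, and let `S` be the set of all sections of
elements of `N` which have finite order and act trivially. Section maps at a word are homomorphisms
on the elements which act trivially; if `γ` is such an element and `f` the section map at a word of
large length then `f γ, f γ ^ 2, ...` are in `N` up to any given exponent, so that `f γ` has finite
order, and it is in `S`. Hence the recursion descends to `Γ / ⟨⟨S⟩⟩`, where every element which acts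
trivially dies, and the group of tree automorphisms is a directed colimit of subgroups of iterated
wreath products of `Γ / ⟨⟨S⟩⟩`. In a free product the elements of finite order are conjugate to
elements of the factors (proved here by cyclic reduction), so `Γ / ⟨⟨S⟩⟩` is a free product of
quotients of the factors.
-/

set_option autoImplicit false

namespace Pool.Agent.Results.MP_9d1ffa_al.TorsionInRecursions

open Pool.Agent.Y462.SS Pool.Agent.U863.CT

/-- the elements of `K` have all sections at some level in the group of tree automorphisms given by
the recursion `ψ` -/
def LevelsIn {X Γ : Type} [Group Γ] (ψ : Γ →* Wr X Γ) (K : Subgroup (T X)) : Prop :=
  ∀ g ∈ K, ∃ n : ℕ, ∀ v : List X, v.length = n → secw (toWr X) g v ∈ (tau ψ).range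

/-- one factor -/
theorem levels (C : ∀ (G : Type) [Group G], Prop) (hC : Closed C) {X : Type} [Finite X] {Γ : Type}
    [Group Γ] (hΓ : TorsionQuotients C Γ) (ψ : Γ →* Wr X Γ) (hψ : Contracting ψ)
    (K : Subgroup (T X)) (hK : LevelsIn ψ K) : C K := by
  obtain ⟨S, hS, hS1, hS2⟩ := tors_main ψ C hC hψ
  exact levels_range ψ C hC (hS2 (hΓ S hS fun s hs => (hS1 s hs).1)) K hK

/-- Let `C` be a class of groups with the closure properties `Closed C`, and let `Γ` be the free product
of a family of groups `A i` (for instance of one group) such that the quotients of each `A i` by finitely
many elements of finite order are in `C`; for instance, `A i` may be finite, or torsion-free and in `C`.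
Then for every contracting recursion `ψ` on `Γ` all groups of tree automorphisms whose elements have
their sections at some level in the group given by `ψ` are in `C`. -/
theorem result (C : ∀ (G : Type) [Group G], Prop) (hC : Closed C) (X : Type) [Finite X]
    (ι : Type) (A : ι → Type) [∀ i, Group (A i)] (hA : ∀ i, TorsionQuotients C (A i))
    (ψ : Monoid.CoprodI A →* Wr X (Monoid.CoprodI A)) (hψ : Contracting ψ)
    (K : Subgroup (T X)) (hK : LevelsIn ψ K) : C K :=
  levels C hC (tq_coprodI' C hC hA) ψ hψ K hK

end Pool.Agent.Results.MP_9d1ffa_al.TorsionInRecursions
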