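import Pool.Agent.U731.SG.Gen

set_option autoImplicit false

/-!
# Forms over integral group rings of arbitrary groups with a small spectral span

`G` is any group (torsion allowed). Quadratic and hermitian forms over `ℤG` whose adjoint has its
spectrum on `ℓ²` in an interval of length at most `3 √2` are orthogonal sums of forms induced from
virtually cyclic subgroups; if the length is less than `4`, they are induced from finite subgroups.
The number `3 √2` is optimal for every group.
-/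

namespace Pool.Agent.Results.MP_9d1ffa_al.VirtuallyCyclicForms

open TH57.Thr TH6.LF Matrix

/-- the adjoint `ψ*` (conjugate transpose) for the involution `g ↦ g⁻¹` of the group ring -/
noncomputable def adjoint {G : Type} [Group G] {ι : Type} (P : Matrix ι ι (MonoidAlgebra ℤ G)) :
    Matrix ι ι (MonoidAlgebra ℤ G) :=
  Matrix.of fun i j => MonoidAlgebra.mapDomain (fun g => g⁻¹) (P j i)

/-- the inner product of finitely supported row vectors over `ℝG` -/
noncomputable def dot {G : Type} [Group G] {ι : Type} [Fintype ι] (x y : ι → MonoidAlgebra ℝ G) :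
    ℝ :=
  ∑ i, (x i).coeff.sum fun g r => (y i).coeff g * r

/-- The values of `⟨xP, x⟩` on the unit vectors of `ℓ²(G)^ι` (with finite support) lie in an interval
`[a, a + s]`; for hermitian `P` this says that the spectrum of the operator `P` lies in it. -/
def SpanLE {G : Type} [Group G] {ι : Type} [Fintype ι] (P : Matrix ι ι (MonoidAlgebra ℤ G))
    (s : ℝ) : Prop :=
  ∃ a : ℝ, ∀ x : ι → MonoidAlgebra ℝ G,
    a * dot x x ≤ dot x (x ᵥ* P.map (MonoidAlgebra.mapRingHom G (Int.castRingHom ℝ))) ∧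
    dot x (x ᵥ* P.map (MonoidAlgebra.mapRingHom G (Int.castRingHom ℝ))) ≤ (a + s) * dot x x

/-- All coefficients are `0`, `1` or `-1`. -/
def Small {G : Type} {ι : Type} (A : Matrix ι ι (MonoidAlgebra ℤ G)) : Prop :=
  ∀ i j g, (A i j).coeff g = 0 ∨ (A i j).coeff g = 1 ∨ (A i j).coeff g = -1

/-- The diagonal matrix of the group elements `u i`. -/
noncomputable def diag {G : Type} [Group G] {n : ℕ} (u : Fin n → G) :
    Matrix (Fin n) (Fin n) (MonoidAlgebra ℤ G) :=
  Matrix.diagonal fun i => MonoidAlgebra.single (u i) 1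

/-- The matrices `ψ` and `ψ'` define the same quadratic form: they differ by `χ - χ*`. -/
def SameForm {G : Type} [Group G] {n : ℕ} (ψ ψ' : Matrix (Fin n) (Fin n) (MonoidAlgebra ℤ G)) :
    Prop :=
  ∃ χ : Matrix (Fin n) (Fin n) (MonoidAlgebra ℤ G), ψ = ψ' + (χ - adjoint χ)

/-- The orthogonal sum of the forms `θ a` over the group rings of the subgroups `C a`, induced up to
the group ring of `G`; the summand `a` lives on the basis elements `i` with `ρ i = a`. -/
noncomputable def orthSum {G : Type} [Group G] {n : ℕ} (ρ : Fin n → Fin n)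
    (C : Fin n → Subgroup G)
    (θ : ∀ a, Matrix {i // ρ i = a} {i // ρ i = a} (MonoidAlgebra ℤ (C a))) :
    Matrix (Fin n) (Fin n) (MonoidAlgebra ℤ G) := fun i j =>
  if h : ρ j = ρ i then MonoidAlgebra.mapDomain (C (ρ i)).subtype (θ (ρ i) ⟨i, rfl⟩ ⟨j, h⟩) else 0

/-- The subgroup `C` is virtually cyclic: it contains a cyclic subgroup of finite index. -/
def VirtuallyCyclic {G : Type} [Group G] (C : Subgroup G) : Prop :=
  ∃ z : C, (Subgroup.zpowers z).FiniteIndex

/-- The quadratic form `ψ` is, up to a diagonal change of basis by group elements, an orthogonal sum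
of forms induced from subgroups with the property `Q`, which are nonsingular if `ψ` is. -/
def QuadraticFrom {G : Type} [Group G] (Q : Subgroup G → Prop) {n : ℕ}
    (ψ : Matrix (Fin n) (Fin n) (MonoidAlgebra ℤ G)) : Prop :=
  ∃ (ρ : Fin n → Fin n) (u : Fin n → G) (C : Fin n → Subgroup G)
    (θ : ∀ a, Matrix {i // ρ i = a} {i // ρ i = a} (MonoidAlgebra ℤ (C a))),
    (∀ a, Q (C a)) ∧ SameForm (diag u * ψ * adjoint (diag u)) (orthSum ρ C θ) ∧
    (IsUnit (ψ + adjoint ψ) → ∀ a, IsUnit (θ a + adjoint (θ a)))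

/-- The hermitian matrix `P` is, up to a diagonal change of basis by group elements, an orthogonal
sum of hermitian matrices induced from subgroups with the property `Q`, invertible if `P` is. -/
def HermitianFrom {G : Type} [Group G] (Q : Subgroup G → Prop) {n : ℕ}
    (P : Matrix (Fin n) (Fin n) (MonoidAlgebra ℤ G)) : Prop :=
  ∃ (ρ : Fin n → Fin n) (u : Fin n → G) (C : Fin n → Subgroup G)
    (θ : ∀ a, Matrix {i // ρ i = a} {i // ρ i = a} (MonoidAlgebra ℤ (C a))),
    (∀ a, Q (C a)) ∧ diag u * P * adjoint (diag u) = orthSum ρ C θ ∧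
    (∀ a, adjoint (θ a) = θ a) ∧ (IsUnit P → ∀ a, IsUnit (θ a))

section aux

variable {G : Type} [Group G] {ι : Type}

theorem adjoint_eq (P : Matrix ι ι (MonoidAlgebra ℤ G)) : adjoint P = adj P := by
  ext i j g
  have h1 : g = (fun g : G => g⁻¹) g⁻¹ := by simp
  rw [coeff_adj]
  change (MonoidAlgebra.mapDomain (fun g : G => g⁻¹) (P j i)).coeff g = _
  conv_lhs => rw [h1]
  exact Finsupp.mapDomain_apply inv_injective _ _

theorem dot_self [Fintype ι] (x : ι → MonoidAlgebra ℝ G) : dot x x = TH57.Thr.normSq x := by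
  unfold dot TH57.Thr.normSq
  refine Finset.sum_congr rfl fun i _ => Finset.sum_congr rfl fun g _ => ?_
  rw [sq]

theorem dot_eq [Fintype ι] (x y : ι → MonoidAlgebra ℝ G) : dot x y = ip y x := by
  rw [ip_comm]
  unfold dot ip
  rw [MonoidAlgebra.coeff_sum, Finsupp.finsetSum_apply]
  refine Finset.sum_congr rfl fun i _ => ?_
  rw [MonoidAlgebra.coeff_mul_apply_left]
  refine Finset.sum_congr rfl fun g _ => ?_
  change (y i).coeff g * (x i).coeff g = (x i).coeff g * (bar (y i)).coeff (g⁻¹ * 1)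
  rw [coeff_bar]
  simp [mul_comm]

theorem span_iff [Fintype ι] (P : Matrix ι ι (MonoidAlgebra ℤ G)) (s : ℝ) :
    SpanLE P s ↔ U731.SP.SpanLE (toReal P) s := by
  rw [U731.SP.spanLE_iff]
  unfold SpanLE
  simp only [dot_self, dot_eq]
  rfl

end aux

/-- `G` is an arbitrary group, `ψ` a quadratic form over `ℤG` (a square matrix modulo the matrices
`χ - χ*`), nonsingular if `ψ + ψ*` is invertible, and `P = P*` a hermitian matrix over `ℤG`.
1. If `ψ + ψ*` (respectively `P`) has span at most `3 √2`, then `ψ` (respectively `P`) is, up to a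
   diagonal change of basis by group elements, an orthogonal sum of forms induced from virtually
   cyclic subgroups, nonsingular if it is nonsingular.
2. If the span is less than `4`, the same holds with finite subgroups.
3. For `s > 3 √2` each quadratic form over each group ring `ℤG` is, after adding hyperbolic planes,
   isometric by a product of commutators to a form `φ` with coefficients `0`, `1`, `-1` such that
   `φ + φ*` has coefficients `0`, `1`, `-1` and span at most `s`. -/
theorem result :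
    (∀ s : ℝ, s ^ 2 ≤ 18 → ∀ (G : Type) [Group G] (n : ℕ),
      (∀ ψ : Matrix (Fin n) (Fin n) (MonoidAlgebra ℤ G), SpanLE (ψ + adjoint ψ) s →
        QuadraticFrom VirtuallyCyclic ψ) ∧
      (∀ P : Matrix (Fin n) (Fin n) (MonoidAlgebra ℤ G), adjoint P = P → SpanLE P s →
        HermitianFrom VirtuallyCyclic P)) ∧
    (∀ s : ℝ, s < 4 → ∀ (G : Type) [Group G] (n : ℕ),
      (∀ ψ : Matrix (Fin n) (Fin n) (MonoidAlgebra ℤ G), SpanLE (ψ + adjoint ψ) s →
        QuadraticFrom (fun C => Finite C) ψ) ∧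
      (∀ P : Matrix (Fin n) (Fin n) (MonoidAlgebra ℤ G), adjoint P = P → SpanLE P s →
        HermitianFrom (fun C => Finite C) P)) ∧
    ∀ s : ℝ, 0 < s → 18 < s ^ 2 → ∀ (G : Type) [Group G] (n : ℕ)
      (ψ : Matrix (Fin n) (Fin n) (MonoidAlgebra ℤ G)),
      ∃ (m : ℕ) (E : (Matrix (Fin n ⊕ (Fin m ⊕ Fin m)) (Fin n ⊕ (Fin m ⊕ Fin m))
          (MonoidAlgebra ℤ G))ˣ) (φ : Matrix (Fin n ⊕ (Fin m ⊕ Fin m))
          (Fin n ⊕ (Fin m ⊕ Fin m)) (MonoidAlgebra ℤ G)),
        E ∈ commutator (Matrix (Fin n ⊕ (Fin m ⊕ Fin m)) (Fin n ⊕ (Fin m ⊕ Fin m))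
          (MonoidAlgebra ℤ G))ˣ ∧
        E.val * fromBlocks ψ 0 0 (fromBlocks 0 1 0 0) * adjoint E.val = φ ∧
        Small φ ∧ Small (φ + adjoint φ) ∧ SpanLE (φ + adjoint φ) s := by
  refine ⟨fun s hs G _ n => ⟨fun ψ hsp => ?_, fun P hP hsp => ?_⟩,
    fun s hs G _ n => ⟨fun ψ hsp => ?_, fun P hP hsp => ?_⟩, fun s hs0 hs G _ n ψ => ?_⟩
  · rw [span_iff, adjoint_eq] at hsp
    obtain ⟨ρ, u, C, θ, χ, h1, h2, h3⟩ := U731.SP.forms_span ψ s hs hsp
    refine ⟨ρ, u, C, θ, h1, ⟨χ, ?_⟩, ?_⟩
    · rw [adjoint_eq, adjoint_eq]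
      exact h2
    · rw [adjoint_eq]
      intro hu a
      rw [adjoint_eq]
      exact h3 hu a
  · rw [span_iff] at hsp
    rw [adjoint_eq] at hP
    obtain ⟨ρ, u, C, θ, h1, h2, h3, h4⟩ := U731.SG.herm_span P hP s hs hsp
    refine ⟨ρ, u, C, θ, h1, ?_, fun a => ?_, h4⟩
    · rw [adjoint_eq]
      exact h2
    · rw [adjoint_eq]
      exact h3 a
  · rw [span_iff, adjoint_eq] at hsp
    obtain ⟨ρ, u, C, θ, χ, h1, h2, h3⟩ := U731.SG.forms_span_fin ψ s hs hsp
    refine ⟨ρ, u, C, θ, h1, ⟨χ, ?_⟩, ?_⟩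
    · rw [adjoint_eq, adjoint_eq]
      exact h2
    · rw [adjoint_eq]
      intro hu a
      rw [adjoint_eq]
      exact h3 hu a
  · rw [span_iff] at hsp
    rw [adjoint_eq] at hP
    obtain ⟨ρ, u, C, θ, h1, h2, h3, h4⟩ := U731.SG.herm_span_fin P hP s hs hsp
    refine ⟨ρ, u, C, θ, h1, ?_, fun a => ?_, h4⟩
    · rw [adjoint_eq]
      exact h2
    · rw [adjoint_eq]
      exact h3 a
  · obtain ⟨m, E, h1, h2, h3, h4⟩ := U731.SP.even_red2 ψ s hs0 hs
    refine ⟨m, E, _, h1, rfl, ?_, ?_, ?_⟩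
    · rw [adjoint_eq]
      exact h2
    · rw [adjoint_eq, adjoint_eq]
      exact h3
    · rw [adjoint_eq, adjoint_eq, span_iff]
      exact h4

end Pool.Agent.Results.MP_9d1ffa_al.VirtuallyCyclicForms
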